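import Pool.Agent.H450R4.NLVarC

/-!
Critical bond percolation on the square lattice: exact asymptotics of the variance of the number of
nested layers around the origin.

`changes n ω` is the minimal number of colour changes of a path from the origin to the distance `n`,
i.e. the number of nested alternating (open / dual-open) layers around the origin.

Definitions (in `Pool.Agent.H974R2.Model`, `Pool.Agent.H974R2.Infinite`,
`Pool.Agent.H863R2.NL.Defs`): `sqLattice`, `bondLaw`, `hlf` (`= 1/2`), `openGraph`; `Pt`, `Corner`,
`Free`, `Change`, `ReachIn`, `norm2`, `changes`.

The law on the cylinder and the comparison with the plane are in `Pool.Agent.H863R2` (starting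
repository); the proofs of this file are in `Pool.Agent.H450R4` (helper450).
-/

namespace Pool.Agent.Results.MP_6bd702_pr.NestingVariance

open MeasureTheory ProbabilityTheory H974 Pool.Agent.H863R2.NL Filter
open scoped Real Topology

theorem result :
    Tendsto (fun n : ℕ => variance (fun ω => (changes n ω : ℝ)) (bondLaw hlf) / Real.log n) atTop
      (𝓝 (2 / (3 * √3 * π) - 1 / (2 * π ^ 2))) :=
  Pool.Agent.H450R4.NL.var_asym

end Pool.Agent.Results.MP_6bd702_pr.NestingVariance
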